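import Pool.Agent.Lib.MP_276d40_pr.WalkMain
import Pool.Agent.Lib.MP_276d40_pr.GWMain
import Pool.Agent.Lib.MP_276d40_pr.PF
import Pool.Agent.Lib.MP_276d40_pr.PFExist
import Pool.Agent.Lib.MP_276d40_pr.WalkExists

/-!
# Quenched invariance principle for critically biased walks on multi-type Galton-Watson trees

For a multi-type Galton-Watson tree with finitely many types, primitive mean matrix with
Perron-Frobenius eigenvalue `ρ > 1` and offspring numbers with finite second moments, there is a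
constant `σ > 0` such that for almost every surviving tree the height of the `ρ`-biased walk,
rescaled diffusively and divided by `σ`, converges in law in `D[0, ∞)` (topology of uniform
convergence on compact intervals) to reflected Brownian motion.

The definitions used in the statement are in `Pool.Agent.Lib.MP_276d40_pr.Stmt`.
-/

open MeasureTheory ProbabilityTheory Filter Topology Finset
open scoped ENNReal NNReal

namespace Pool.Agent.Results.MP_276d40_pr.DiffusiveCLT

open Pool.Agent.BW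

theorem result (Q : Type) [Fintype Q] [DecidableEq Q] [Nonempty Q]
    (q : Q → Measure (Q → ℕ)) [hq : ∀ a, IsProbabilityMeasure (q a)]
    (h2 : ∀ a, ∫⁻ x, (∑ b, (x b : ℝ≥0∞)) ^ 2 ∂(q a) < ∞)
    (hprim : ∃ n0 : ℕ, ∀ a b, 0 < (meanMat q ^ n0) a b)
    (ρ : ℝ) (hρ : ρ = (spectralRadius ℂ ((meanMat q).map ((↑) : ℝ → ℂ))).toReal)
    (h1 : 1 < ρ) :
    ∃ σ > 0, ∀ a : Q, ∀ᵐ ω ∂(mgw q a), Survives ω →
      (∃ (Ω : Type) (_ : MeasurableSpace Ω) (P : Measure Ω) (X : ℕ → Ω → List (Q × ℕ)),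
        IsWalk (chE ω) ρ X P) ∧
      WalkCLT (chE ω) ρ σ := by
  have hA : ∀ a b, 0 ≤ meanMat q a b := fun a b =>
    integral_nonneg fun x => Nat.cast_nonneg _
  obtain ⟨e, he, hAe⟩ := pf_right hA hprim
  rw [← hρ] at hAe
  have hρ0 : 0 < ρ := by linarith
  obtain ⟨l, hl, hlA, hle, hconv⟩ := pf_left hA hprim hρ0 he hAe
  have H : MGWHyp q ρ e l :=
    { prob := hq
      mom2 := h2
      one_lt := h1
      e_pos := he
      l_pos := hl
      Ae := hAe
      lA := hlA
      le_one := hle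
      conv := hconv
      prim := hprim }
  obtain ⟨a0⟩ := ‹Nonempty Q›
  have hκ := kappa_pos H a0
  have hl0 : 0 < ∑ b, l b := Finset.sum_pos (fun b _ => hl b) ⟨a0, Finset.mem_univ a0⟩
  refine ⟨√((2 * ρ * ∑ b, l b * ∫ ω', Wf ρ e b ω' ^ 2 ∂mgw q b) / (2 * ρ * ∑ b, l b)) /
    (∑ b, l b * ∫ ω', Wf ρ e b ω' ^ 2 ∂mgw q b), ?_, fun a => ?_⟩
  · have : 0 < (2 * ρ * ∑ b, l b * ∫ ω', Wf ρ e b ω' ^ 2 ∂mgw q b) / (2 * ρ * ∑ b, l b) := by
      positivity
    exact div_pos (Real.sqrt_pos.2 this) hκ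
  · filter_upwards [treeGood_ae H a] with ω hω hs
    exact ⟨exists_walk (chE ω) ρ hρ0, walkCLT_of_good (hω hs)⟩

end Pool.Agent.Results.MP_276d40_pr.DiffusiveCLT
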